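import Pool.Agent.KDT.StmtsM

set_option autoImplicit false

/-!
# KDT, row RTL: a point over a `k`-rational plane point is `k`-rational.
-/

namespace Pool.Agent.KDT.H59

open Polynomial Pool.Agent.KDT.Z

theorem rtl (hEmb : EmbStatement) : RtlStatement := by
  intro k U _ _ _ f g hE q hq hn
  haveI : IsAlgClosed k := hE.kc
  haveI : CharZero k := hE.ch
  obtain ⟨⟨s, hs⟩, ⟨p, hp⟩⟩ := not_not.1 hn
  have h2k : (2 : k) ≠ 0 := two_ne_zero
  obtain ⟨d, hd⟩ := IsAlgClosed.exists_pow_nat_eq (s ^ 2 - 4 * p) (n := 2) (by norm_num)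
  obtain ⟨a, ha⟩ : ∃ a : k, 2 * a = s + d := ⟨(s + d) / 2, by field_simp⟩
  obtain ⟨a', ha'⟩ : ∃ a' : k, 2 * a' = s - d := ⟨(s - d) / 2, by field_simp⟩
  have e1 : a + a' = s := by
    have : 2 * (a + a') = 2 * s := by linear_combination ha + ha'
    exact mul_left_cancel₀ h2k this
  have e2 : a * a' = p := by
    have h4 : (4 : k) ≠ 0 := by norm_num
    have : 4 * (a * a') = 4 * p := by
      linear_combination (2 * a') * ha + (s + d) * ha' - hd
    exact mul_left_cancel₀ h4 this
  have hpA : pA q = (X - C (algebraMap k U a)) * (X - C (algebraMap k U a')) := by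
    unfold pA
    rw [← hs, ← hp, ← e1, ← e2, map_add, map_mul, C_add, C_mul]
    ring
  have hg : ∀ x : k, g.eval (algebraMap k U x) = algebraMap k U (f.eval x) := by
    intro x
    rw [hE.gm, Polynomial.eval_map, Polynomial.eval₂_at_apply]
  have hg' : ∀ x : k, (derivative g).eval (algebraMap k U x) =
      algebraMap k U ((derivative f).eval x) := by
    intro x
    rw [hE.gm, Polynomial.derivative_map, Polynomial.eval_map, Polynomial.eval₂_at_apply]
  obtain ⟨R, hR⟩ := hq
  have key : ∀ x : k, x = a ∨ x = a' → ∃ b : k, q 3 * algebraMap k U x + q 2 = algebraMap k U b ∧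
      b ^ 2 = f.eval x := by
    intro x hx
    obtain ⟨b, hb⟩ := IsAlgClosed.exists_pow_nat_eq (f.eval x) (n := 2) (by norm_num)
    have h1 := congrArg (Polynomial.eval (algebraMap k U x)) hR
    have h2 : (q 3 * algebraMap k U x + q 2) ^ 2 = (algebraMap k U b) ^ 2 := by
      rw [← map_pow, hb, ← hg x]
      rw [hpA] at h1
      simp only [pB, eval_sub, eval_pow, eval_add, eval_mul, eval_C, eval_X] at h1
      rcases hx with rfl | rfl
      · rw [sub_self, zero_mul, zero_mul] at h1
        exact sub_eq_zero.1 h1
      · rw [sub_self, mul_zero, zero_mul] at h1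
        exact sub_eq_zero.1 h1
    rcases sq_eq_sq_iff_eq_or_eq_neg.1 h2 with h | h
    · exact ⟨b, h, hb⟩
    · exact ⟨-b, by rw [h, map_neg], by rw [neg_sq, hb]⟩
  obtain ⟨b, hb, hbf⟩ := key a (Or.inl rfl)
  obtain ⟨b', hb', hbf'⟩ := key a' (Or.inr rfl)
  obtain ⟨t3, ht3⟩ : ∃ t3 : k, q 3 = algebraMap k U t3 := by
    by_cases haa : a = a'
    · subst haa
      have hb0 : b ≠ 0 := by
        intro h0
        have hf0 : f.eval a = 0 := by rw [← hbf, h0]; ring
        have h1 := congrArg (fun P => Polynomial.eval (algebraMap k U a) (derivative P)) hR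
        have hfd : (derivative f).eval a = 0 := by
          apply (algebraMap k U).injective
          rw [map_zero, ← hg' a]
          rw [hpA] at h1
          simp only [pB, derivative_sub, derivative_pow, derivative_mul, derivative_add,
            derivative_C, derivative_X, eval_sub, eval_pow, eval_add, eval_mul, eval_C, eval_X,
            sub_self] at h1
          rw [hb, h0, map_zero] at h1
          simp at h1
          exact h1
        have hf : f ≠ 0 := by
          intro h
          have := hE.d5
          rw [h] at this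
          simp at this
        have h3 : 1 < f.rootMultiplicity a :=
          (Polynomial.one_lt_rootMultiplicity_iff_isRoot hf).2 ⟨hf0, hfd⟩
        have h4 : (X - C a) ^ 2 ∣ f := (Polynomial.le_rootMultiplicity_iff hf).1 h3
        rw [pow_two] at h4
        exact Polynomial.not_isUnit_X_sub_C a (hE.sf _ h4)
      refine ⟨(derivative f).eval a / (2 * b), ?_⟩
      have h1 := congrArg (fun P => Polynomial.eval (algebraMap k U a) (derivative P)) hR
      rw [hpA] at h1
      simp only [pB, derivative_sub, derivative_pow, derivative_mul, derivative_add,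
        derivative_C, derivative_X, eval_sub, eval_pow, eval_add, eval_mul, eval_C, eval_X,
        sub_self] at h1
      rw [hb, hg' a] at h1
      have hb0' : algebraMap k U b ≠ 0 := by
        rw [Ne, map_eq_zero]
        exact hb0
      have h2 : 2 * algebraMap k U b * q 3 = algebraMap k U ((derivative f).eval a) := by
        simp at h1
        linear_combination h1
      haveI : CharZero U := charZero_of_injective_algebraMap (algebraMap k U).injective
      have h3 : (2 : U) ≠ 0 := two_ne_zero
      rw [map_div₀, map_mul, map_ofNat, ← h2]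
      field_simp
    · have h0 : algebraMap k U (a - a') ≠ 0 := by
        rw [Ne, map_eq_zero]
        exact sub_ne_zero.2 haa
      refine ⟨(b - b') / (a - a'), ?_⟩
      rw [map_div₀, eq_div_iff h0, map_sub, map_sub, ← hb, ← hb']
      ring
  obtain ⟨t2, ht2⟩ : ∃ t2 : k, q 2 = algebraMap k U t2 := by
    refine ⟨b - t3 * a, ?_⟩
    rw [map_sub, map_mul, ← hb, ← ht3]
    ring
  have hqe : q = emb U ![s, p, t2, t3] := by
    funext i
    fin_cases i
    · exact hs.symm
    · exact hp.symm
    · exact ht2
    · exact ht3
  refine ⟨![s, p, t2, t3], ?_, hqe⟩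
  have h := (hEmb k U f g hE.gm ![s, p, t2, t3] ![s, p, t2, t3]).2.2.2.1
  rw [← hqe] at h
  exact h.1 ⟨R, hR⟩

end Pool.Agent.KDT.H59
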